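import Pool.Agent.D0H11.GM.Stm

/-! Project GM, module PU: the measure of the parameters for which two given numbers are prime. -/

set_option autoImplicit false

namespace Pool.Agent.D0H17.GM

open Pool.Agent.D0H11.GM
open Finset MeasureTheory Filter

/-- the statement of BTM with a given constant -/
def BT (C : ℝ) : Prop := 0 < C ∧ ∀ y₁ y₂ : ℝ, 0 ≤ y₁ → y₁ ≤ y₂ →
  volume {y : ℝ | y ∈ Set.Icc y₁ y₂ ∧ (⌊y⌋₊ + 1).Prime} ≤
    ENNReal.ofReal (C * (y₂ - y₁ + 1) / Real.log (y₂ - y₁ + 2))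

/-- the set for the exponents `u v u' v'` -/
def SS (c : ℝ × ℝ) (r : ℝ) (u v u' v' : ℕ) : Set (ℝ × ℝ) :=
  {a | a ∈ Metric.closedBall c r ∧ (⌊a.1 * 2 ^ u + a.2 * 2 ^ v⌋₊ + 1).Prime ∧
    (⌊a.1 * 2 ^ u' + a.2 * 2 ^ v'⌋₊ + 1).Prime}

theorem meas_prime {f : ℝ × ℝ → ℝ} (hf : Measurable f) :
    MeasurableSet {a : ℝ × ℝ | (⌊f a⌋₊ + 1).Prime} := by
  have h1 : Measurable fun a => ⌊f a⌋₊ := Nat.measurable_floor.comp hf
  have h2 : MeasurableSet {k : ℕ | (k + 1).Prime} := trivial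
  exact h1 h2

theorem meas_SS (c : ℝ × ℝ) (r : ℝ) (u v u' v' : ℕ) : MeasurableSet (SS c r u v u' v') := by
  unfold SS
  apply MeasurableSet.inter
  · exact measurableSet_closedBall
  · apply MeasurableSet.inter
    · exact meas_prime (by fun_prop)
    · exact meas_prime (by fun_prop)

/-- primes in the values of an affine function -/
theorem affine {C : ℝ} (hB : BT C) (lam κ b r : ℝ) (hκ : κ ≠ 0) (hr : 0 < r) :
    volume {β : ℝ | |β - b| ≤ r ∧ 0 ≤ lam + κ * β ∧ (⌊lam + κ * β⌋₊ + 1).Prime} ≤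
      ENNReal.ofReal (|κ|⁻¹ * (C * (2 * r * |κ| + 1) / Real.log (2 * r * |κ| + 2))) := by
  set y₁ : ℝ := max 0 (lam + κ * b - r * |κ|) with hy₁
  set Y : Set ℝ := {y : ℝ | y ∈ Set.Icc y₁ (y₁ + 2 * r * |κ|) ∧ (⌊y⌋₊ + 1).Prime} with hY
  have hκ0 : 0 < |κ| := abs_pos.mpr hκ
  have h1 : {β : ℝ | |β - b| ≤ r ∧ 0 ≤ lam + κ * β ∧ (⌊lam + κ * β⌋₊ + 1).Prime} ⊆
      (fun β => κ * β) ⁻¹' ((fun t => t + lam) ⁻¹' Y) := by
    rintro β ⟨h1, h2, h3⟩
    rw [Set.mem_preimage, Set.mem_preimage, hY]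
    have e : κ * β + lam = lam + κ * β := by ring
    have h4 : |κ * (β - b)| ≤ |κ| * r := by
      rw [abs_mul]
      exact mul_le_mul_of_nonneg_left h1 hκ0.le
    have h5 := abs_le.mp h4
    refine ⟨⟨?_, ?_⟩, ?_⟩
    · show y₁ ≤ κ * β + lam
      rw [hy₁, e]
      apply max_le h2
      nlinarith [h5.1]
    · show κ * β + lam ≤ y₁ + 2 * r * |κ|
      have h6 : lam + κ * b - r * |κ| ≤ y₁ := le_max_right _ _
      nlinarith [h5.2]
    · show (⌊κ * β + lam⌋₊ + 1).Prime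
      rw [e]
      exact h3
  have h2 := measure_mono (μ := (volume : Measure ℝ)) h1
  rw [Real.volume_preimage_mul_left hκ, measure_preimage_add_right] at h2
  have h3 := hB.2 y₁ (y₁ + 2 * r * |κ|) (le_max_left _ _) (by nlinarith [mul_pos hr hκ0])
  have e1 : y₁ + 2 * r * |κ| - y₁ = 2 * r * |κ| := by ring
  rw [e1] at h3
  refine le_trans h2 ?_
  rw [ENNReal.ofReal_mul (by positivity), abs_inv]
  gcongr

/-- `Φ` -/
theorem shear (c : ℝ × ℝ) (r : ℝ) (u v u' v' : ℕ) :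
    volume (SS c r u v u' v') = ENNReal.ofReal ((2 : ℝ) ^ u)⁻¹ *
      ∫⁻ L : ℝ, volume {β : ℝ | ((L - β * 2 ^ v) / 2 ^ u, β) ∈ SS c r u v u' v'} := by
  have hm := meas_SS c r u v u' v'
  set S := SS c r u v u' v' with hS
  have hu : (2 : ℝ) ^ u ≠ 0 := by positivity
  set T : Set (ℝ × ℝ) := {p | ((p.1 - p.2 * 2 ^ v) / 2 ^ u, p.2) ∈ S} with hT
  have hTm : MeasurableSet T := by
    have : Measurable fun p : ℝ × ℝ => ((p.1 - p.2 * 2 ^ v) / 2 ^ u, p.2) := by fun_prop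
    exact this hm
  have h1 : volume S = ∫⁻ β : ℝ, volume ((fun α : ℝ => (α, β)) ⁻¹' S) := by
    rw [Measure.volume_eq_prod, Measure.prod_apply_symm hm]
  have h2 : ∀ β : ℝ, volume ((fun α : ℝ => (α, β)) ⁻¹' S) =
      ENNReal.ofReal ((2 : ℝ) ^ u)⁻¹ * volume ((fun L : ℝ => (L, β)) ⁻¹' T) := by
    intro β
    have h3 : (fun α : ℝ => (α, β)) ⁻¹' S = (fun α : ℝ => 2 ^ u * α) ⁻¹'
        ((fun t : ℝ => t + β * 2 ^ v) ⁻¹' ((fun L : ℝ => (L, β)) ⁻¹' T)) := by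
      ext α
      simp only [Set.mem_preimage, hT, Set.mem_ofPred_eq]
      have e : (2 ^ u * α + β * 2 ^ v - β * 2 ^ v) / 2 ^ u = α := by
        field_simp
        ring
      rw [e]
    rw [h3, Real.volume_preimage_mul_left hu, measure_preimage_add_right, abs_of_pos (by positivity)]
  rw [h1, lintegral_congr h2, lintegral_const_mul' _ _ ENNReal.ofReal_ne_top]
  congr 1
  rw [← Measure.prod_apply_symm hTm, Measure.prod_apply hTm]
  rfl

theorem core {C : ℝ} (hB : BT C) (c : ℝ × ℝ) (r : ℝ) (hc : Sq c r) (M : ℕ) (hM : 1 ≤ M)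
    (h1 : (M : ℝ) ≤ Real.log (r * 2 ^ (2 * M))) (h2 : 2 ≤ r * 2 ^ (2 * M)) (u v u' v' : ℕ)
    (hu : 2 * M ≤ u) (hv' : 2 * M ≤ v') (hvu : v ≤ u) (hne : u + v' ≠ u' + v) :
    volume (SS c r u v u' v') ≤ ENNReal.ofReal (15 * C ^ 2 * r ^ 2 / (M : ℝ) ^ 2) := by
  have hC := hB.1
  have hr := hc.1
  have hM0 : (0 : ℝ) < M := by exact_mod_cast hM
  have hlog : 0 < Real.log (r * 2 ^ (2 * M)) := lt_of_lt_of_le hM0 h1
  set lam : ℝ → ℝ := fun L => 2 ^ u' / 2 ^ u * L with hlam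
  set κ : ℝ := 2 ^ v' - 2 ^ u' * 2 ^ v / 2 ^ u with hκ
  have hup : (0 : ℝ) < 2 ^ u := by positivity
  have hpow : ∀ {a b : ℕ}, a ≤ b → (2 : ℝ) ^ a ≤ 2 ^ b := fun h => pow_le_pow_right₀ (by norm_num) h
  have hv2 : (2 : ℝ) ^ (2 * M) ≤ 2 ^ v' := hpow hv'
  have hκ1 : (2 : ℝ) ^ v' / 2 ≤ |κ| := by
    rcases lt_or_gt_of_ne hne with h | h
    · have h3 : (2 : ℝ) ^ (u + v' + 1) ≤ 2 ^ (u' + v) := hpow (by omega)
      rw [pow_add, pow_add, pow_add, pow_one] at h3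
      have h4 : 2 ^ v' * 2 ≤ (2 : ℝ) ^ u' * 2 ^ v / 2 ^ u := by
        rw [le_div_iff₀ hup]; nlinarith
      have h5 : κ ≤ -2 ^ v' := by rw [hκ]; nlinarith
      have h6 : (0 : ℝ) < 2 ^ v' := by positivity
      rw [abs_of_neg (by linarith)]
      linarith
    · have h3 : (2 : ℝ) ^ (u' + v + 1) ≤ 2 ^ (u + v') := hpow (by omega)
      rw [pow_add, pow_add, pow_add, pow_one] at h3
      have h4 : (2 : ℝ) ^ u' * 2 ^ v / 2 ^ u ≤ 2 ^ v' / 2 := by
        rw [div_le_iff₀ hup]; nlinarith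
      have h5 : 2 ^ v' / 2 ≤ κ := by rw [hκ]; nlinarith
      have h6 : (0 : ℝ) < 2 ^ v' := by positivity
      rw [abs_of_pos (by linarith)]
      exact h5
  have hκ0 : 0 < |κ| := lt_of_lt_of_le (by positivity) hκ1
  have hκne : κ ≠ 0 := abs_pos.mp hκ0
  -- inner bound
  have hin : |κ|⁻¹ * (C * (2 * r * |κ| + 1) / Real.log (2 * r * |κ| + 2)) ≤ 3 * C * r / M := by
    have h3 : r * 2 ^ (2 * M) ≤ 2 * r * |κ| + 2 := by
      have : r * 2 ^ (2 * M) ≤ r * (2 * |κ|) := by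
        apply mul_le_mul_of_nonneg_left _ hr.le
        linarith
      nlinarith
    have h4 : (M : ℝ) ≤ Real.log (2 * r * |κ| + 2) :=
      le_trans h1 (Real.log_le_log (by positivity) h3)
    have h5 : |κ|⁻¹ * (C * (2 * r * |κ| + 1) / Real.log (2 * r * |κ| + 2)) =
        C * (2 * r + |κ|⁻¹) / Real.log (2 * r * |κ| + 2) := by
      field_simp
    have h6 : |κ|⁻¹ ≤ r := by
      rw [inv_le_comm₀ hκ0 hr]
      rw [inv_le_iff_one_le_mul₀ hr]
      nlinarith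
    rw [h5]
    calc C * (2 * r + |κ|⁻¹) / Real.log (2 * r * |κ| + 2) ≤ C * (2 * r + r) / M := by
          gcongr
      _ = 3 * C * r / M := by ring
  set A₁ : ℝ := (c.1 - r) * 2 ^ u + (c.2 - r) * 2 ^ v with hA₁
  set A₂ : ℝ := (c.1 + r) * 2 ^ u + (c.2 + r) * 2 ^ v with hA₂
  set Q : Set ℝ := {L | L ∈ Set.Icc A₁ A₂ ∧ (⌊L⌋₊ + 1).Prime} with hQ
  have hA0 : 0 ≤ A₁ := by
    have h3 := hc.2.1
    have h4 := hc.2.2
    rw [hA₁]
    have : 0 ≤ c.1 - r := by linarith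
    have : 0 ≤ c.2 - r := by linarith
    positivity
  have hA12 : A₂ - A₁ = 2 * r * (2 ^ u + 2 ^ v) := by rw [hA₁, hA₂]; ring
  have hvp : (0 : ℝ) < 2 ^ v := by positivity
  have hQm : volume Q ≤ ENNReal.ofReal (5 * C * r * 2 ^ u / M) := by
    have h3 := hB.2 A₁ A₂ hA0 (by
      have : 0 ≤ A₂ - A₁ := by rw [hA12]; positivity
      linarith)
    refine le_trans h3 (ENNReal.ofReal_le_ofReal ?_)
    rw [hA12]
    have h4 : (2 : ℝ) ^ v ≤ 2 ^ u := hpow hvu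
    have h5 : (2 : ℝ) ^ (2 * M) ≤ 2 ^ u := hpow hu
    have h6 : r * 2 ^ (2 * M) ≤ r * 2 ^ u := mul_le_mul_of_nonneg_left h5 hr.le
    have h7 : r * 2 ^ v ≤ r * 2 ^ u := mul_le_mul_of_nonneg_left h4 hr.le
    have h8 : (M : ℝ) ≤ Real.log (2 * r * (2 ^ u + 2 ^ v) + 2) := by
      refine le_trans h1 (Real.log_le_log (by positivity) ?_)
      have : 0 < r * 2 ^ v := by positivity
      nlinarith
    calc C * (2 * r * (2 ^ u + 2 ^ v) + 1) / Real.log (2 * r * (2 ^ u + 2 ^ v) + 2)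
        ≤ C * (5 * (r * 2 ^ u)) / M := by
          gcongr
          nlinarith
      _ = 5 * C * r * 2 ^ u / M := by ring
  have hsec : ∀ L : ℝ, volume {β : ℝ | ((L - β * 2 ^ v) / 2 ^ u, β) ∈ SS c r u v u' v'} ≤
      Q.indicator (fun _ => ENNReal.ofReal (3 * C * r / M)) L := by
    intro L
    have key : ∀ β : ℝ, ((L - β * 2 ^ v) / 2 ^ u, β) ∈ SS c r u v u' v' →
        L ∈ Q ∧ |β - c.2| ≤ r ∧ 0 ≤ lam L + κ * β ∧ (⌊lam L + κ * β⌋₊ + 1).Prime := by
      rintro β ⟨k1, k2, k3⟩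
      simp only at k2 k3
      have e1 : (L - β * 2 ^ v) / 2 ^ u * 2 ^ u + β * 2 ^ v = L := by
        field_simp
        ring
      have e2 : (L - β * 2 ^ v) / 2 ^ u * 2 ^ u' + β * 2 ^ v' = lam L + κ * β := by
        rw [hlam, hκ]
        field_simp
        ring
      rw [e1] at k2
      rw [e2] at k3
      rw [Metric.mem_closedBall, Prod.dist_eq, max_le_iff, Real.dist_eq, Real.dist_eq] at k1
      simp only at k1
      set α : ℝ := (L - β * 2 ^ v) / 2 ^ u with hα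
      have k4 := abs_le.mp k1.1
      have k5 := abs_le.mp k1.2
      have k6 := hc.2.1
      have k7 := hc.2.2
      have hα0 : 0 ≤ α := by linarith
      have hβ0 : 0 ≤ β := by linarith
      refine ⟨⟨⟨?_, ?_⟩, k2⟩, k1.2, ?_, k3⟩
      · rw [← e1, hA₁]
        have i1 : (c.1 - r) * 2 ^ u ≤ α * 2 ^ u := mul_le_mul_of_nonneg_right (by linarith) hup.le
        have i2 : (c.2 - r) * 2 ^ v ≤ β * 2 ^ v := mul_le_mul_of_nonneg_right (by linarith) hvp.le
        linarith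
      · rw [← e1, hA₂]
        have i1 : α * 2 ^ u ≤ (c.1 + r) * 2 ^ u := mul_le_mul_of_nonneg_right (by linarith) hup.le
        have i2 : β * 2 ^ v ≤ (c.2 + r) * 2 ^ v := mul_le_mul_of_nonneg_right (by linarith) hvp.le
        linarith
      · rw [← e2]
        positivity
    by_cases hL : L ∈ Q
    · rw [Set.indicator_of_mem hL]
      refine le_trans (measure_mono fun β hβ => (key β hβ).2) ?_
      exact le_trans (affine hB (lam L) κ c.2 r hκne hr) (ENNReal.ofReal_le_ofReal hin)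
    · rw [Set.indicator_of_notMem hL]
      have : {β : ℝ | ((L - β * 2 ^ v) / 2 ^ u, β) ∈ SS c r u v u' v'} = ∅ := by
        ext β
        simp only [Set.mem_ofPred_eq, Set.mem_empty_iff_false, iff_false]
        intro hβ
        exact hL (key β hβ).1
      rw [this, measure_empty]
  rw [shear]
  have h3 : ∫⁻ L : ℝ, volume {β : ℝ | ((L - β * 2 ^ v) / 2 ^ u, β) ∈ SS c r u v u' v'} ≤
      ENNReal.ofReal (3 * C * r / M) * ENNReal.ofReal (5 * C * r * 2 ^ u / M) := by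
    refine le_trans (lintegral_mono hsec) (le_trans (lintegral_indicator_const_le _ _) ?_)
    gcongr
  refine le_trans (mul_le_mul_right h3 _) ?_
  rw [← ENNReal.ofReal_mul (by positivity), ← ENNReal.ofReal_mul (by positivity)]
  apply ENNReal.ofReal_le_ofReal
  apply le_of_eq
  field_simp
  ring

theorem ev1 {r : ℝ} (hr : 0 < r) : ∀ᶠ M : ℕ in atTop, 1 ≤ M ∧
    (M : ℝ) ≤ Real.log (r * 2 ^ (2 * M)) ∧ 2 ≤ r * (2 : ℝ) ^ (2 * M) := by
  have h0 : ∀ᶠ M : ℕ in atTop, 1 ≤ M := eventually_ge_atTop 1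
  have h1 : ∀ᶠ M : ℕ in atTop, -Real.log r ≤ (M : ℝ) * (2 * Real.log 2 - 1) := by
    have hl : 0 < 2 * Real.log 2 - 1 := by
      have := Real.log_two_gt_d9
      linarith
    have := (tendsto_natCast_atTop_atTop (R := ℝ)).atTop_mul_const hl
    exact this.eventually_ge_atTop _
  have h2 : ∀ᶠ M : ℕ in atTop, 2 / r ≤ (M : ℝ) :=
    (tendsto_natCast_atTop_atTop (R := ℝ)).eventually_ge_atTop _
  filter_upwards [h0, h1, h2] with M h0 h1 h2
  refine ⟨h0, ?_, ?_⟩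
  · rw [Real.log_mul hr.ne' (by positivity), Real.log_pow]
    push_cast
    nlinarith
  · have h3 : (M : ℝ) ≤ 2 ^ (2 * M) := by
      have : M < 2 ^ (2 * M) := lt_of_le_of_lt (by omega) (Nat.lt_two_pow_self (n := 2 * M))
      exact_mod_cast this.le
    rw [div_le_iff₀ hr] at h2
    nlinarith

theorem t_PU : S_BTM → S_PU := by
  rintro ⟨C, hC, hB⟩
  have hBT : BT C := ⟨hC, hB⟩
  refine ⟨15 * C ^ 2, by positivity, fun c r hc => ?_⟩
  filter_upwards [ev1 hc.1] with M hM q hq q' hq' hne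
  obtain ⟨h0, h1, h2⟩ := hM
  have hmem : ∀ p ∈ QQ M, ∀ i, M ≤ p i := by
    intro p hp i
    unfold QQ at hp
    rw [mem_filter, Fintype.mem_piFinset] at hp
    exact (mem_Ico.mp (hp.1 i)).1
  have g0 := hmem q hq
  have g1 := hmem q' hq'
  have hu : 2 * M ≤ uu q := by unfold uu; have := g0 0; have := g0 1; omega
  have hv : 2 * M ≤ vv q := by unfold vv; have := g0 2; have := g0 3; omega
  have hu' : 2 * M ≤ uu q' := by unfold uu; have := g1 0; have := g1 1; omega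
  have hv' : 2 * M ≤ vv q' := by unfold vv; have := g1 2; have := g1 3; omega
  have hset : {a : ℝ × ℝ | a ∈ Metric.closedBall c r ∧ PP a q ∧ PP a q'} =
      SS c r (uu q) (vv q) (uu q') (vv q') := rfl
  rw [hset]
  rcases le_total (vv q) (uu q) with h | h
  · exact core hBT c r hc M h0 h1 h2 _ _ _ _ hu hv' h hne
  · have hs : Prod.swap ⁻¹' (SS c r (uu q) (vv q) (uu q') (vv q')) =
        SS c.swap r (vv q) (uu q) (vv q') (uu q') := by
      ext a
      unfold SS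
      simp only [Set.mem_preimage, Set.mem_ofPred_eq, Metric.mem_closedBall, Prod.dist_eq,
        Prod.fst_swap, Prod.snd_swap]
      rw [max_comm, add_comm (a.2 * 2 ^ uu q), add_comm (a.2 * 2 ^ uu q')]
    have hsw : volume (SS c r (uu q) (vv q) (uu q') (vv q')) =
        volume (Prod.swap ⁻¹' (SS c r (uu q) (vv q) (uu q') (vv q'))) := by
      have := (Measure.measurePreserving_swap (μ := (volume : Measure ℝ))
        (ν := (volume : Measure ℝ))).measure_preimage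
        (meas_SS c r (uu q) (vv q) (uu q') (vv q')).nullMeasurableSet
      exact this.symm
    rw [hsw, hs]
    exact core hBT c.swap r ⟨hc.1, hc.2.2, hc.2.1⟩ M h0 h1 h2 _ _ _ _ hv hu' h (by omega)

end Pool.Agent.D0H17.GM
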